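import Pool.Agent.H121.MY.Iface
import Pool.Agent.H410.ME.TopB
import Pool.Agent.H168.Y987.Op

/-! MY-T: the numerical range of `Op k + lam ω` reaches `κ + lam` (indicator functions of far away
good boxes). -/

set_option autoImplicit false
set_option linter.unusedSectionVars false

open scoped BigOperators InnerProductSpace Topology ENNReal
open Filter MeasureTheory ProbabilityTheory

namespace Pool.Agent.H548.MY

open Pool.Agent.Y662.TR (LL Cf Mw dv hu lmk lmk_apply ll_sum ll_inner clp)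
open Pool.Agent.H987.Y
open Pool.Agent.H121.Z987 (wt HH HH_apply)
open Pool.Agent.H121.MY
open Pool.Agent.H410.ME (good_box bx mem_bx card_bx card_bd clp_ge)

/-! ### indicator functions -/

section ind

variable {ι : Type}

open Classical in
theorem tf_sum (Λ : Finset ι) : Summable fun p : ι => ‖(if p ∈ Λ then (1 : ℂ) else 0)‖ ^ 2 := by
  refine summable_of_ne_finset_zero (s := Λ) fun p hp => ?_
  rw [if_neg hp, norm_zero, zero_pow two_ne_zero]

open Classical in
/-- the indicator function of a finite set -/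
noncomputable def tf (Λ : Finset ι) : LL ι := lmk (fun p => if p ∈ Λ then 1 else 0) (tf_sum Λ)

open Classical in
theorem tf_apply (Λ : Finset ι) (p : ι) : tf Λ p = if p ∈ Λ then 1 else 0 := rfl

theorem tf_norm (Λ : Finset ι) : ‖tf Λ‖ ^ 2 = Λ.card := by
  classical
  have h1 := ll_sum (tf Λ)
  have h2 : HasSum (fun p => ‖tf Λ p‖ ^ 2) (∑ p ∈ Λ, ‖tf Λ p‖ ^ 2) :=
    hasSum_sum_of_ne_finset_zero fun p hp => by
      rw [tf_apply, if_neg hp, norm_zero, zero_pow two_ne_zero]
  rw [h1.unique h2]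
  have h3 : ∀ p ∈ Λ, ‖tf Λ p‖ ^ 2 = 1 := by
    intro p hp
    rw [tf_apply, if_pos hp, norm_one, one_pow]
  rw [Finset.sum_congr rfl h3]
  simp

theorem tf_inner (Λ : Finset ι) (v : LL ι) : ⟪tf Λ, v⟫_ℂ = ∑ p ∈ Λ, v p := by
  classical
  have h1 := ll_inner (tf Λ) v
  have h2 : HasSum (fun p => (starRingEnd ℂ) (tf Λ p) * v p)
      (∑ p ∈ Λ, (starRingEnd ℂ) (tf Λ p) * v p) :=
    hasSum_sum_of_ne_finset_zero fun p hp => by
      rw [tf_apply, if_neg hp, map_zero, zero_mul]
  rw [h1.unique h2]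
  refine Finset.sum_congr rfl fun p hp => ?_
  rw [tf_apply, if_pos hp, map_one, one_mul]

theorem op_tf {h : ℝ} {k : ι → ι → ℝ} (hk : Ker h k) (Λ : Finset ι) (x : ι) :
    Op k (tf Λ) x = ((∑ y ∈ Λ, k x y : ℝ) : ℂ) := by
  classical
  rw [((Pool.Agent.H168.Y987.op ι k h hk).1 (tf Λ) x).2, tsum_eq_sum (s := Λ), Complex.ofReal_sum]
  · refine Finset.sum_congr rfl fun y hy => ?_
    rw [tf_apply, if_pos hy, mul_one]
  · intro y hy
    rw [tf_apply, if_neg hy, mul_zero]

theorem hh_tf {h : ℝ} {k : ι → ι → ℝ} (hk : Ker h k) (Λ : Finset ι) (lam : ℝ) (ω : ι → ℝ) :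
    (⟪tf Λ, HH (Op k) lam ω (tf Λ)⟫_ℂ).re =
      ∑ x ∈ Λ, (∑ y ∈ Λ, k x y + clp lam (lam * ω x)) := by
  classical
  rw [tf_inner, Complex.re_sum]
  refine Finset.sum_congr rfl fun x hx => ?_
  rw [HH_apply, op_tf hk, tf_apply, if_pos hx, mul_one, ← Complex.ofReal_add, Complex.ofReal_re]

/-- the row sum is at most `h` -/
theorem row_le {h κ : ℝ} {k : ι → ι → ℝ} (hk : Ker h k) (x : ι) (hκ : ∑' y, k x y = κ) :
    κ ≤ h := by
  rw [← hκ]
  refine le_trans ?_ (hk.le x)
  exact Summable.tsum_le_tsum (fun y => le_abs_self _) (hk.sm x).of_abs (hk.sm x)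

/-- points near the boundary -/
theorem S_out {h : ℝ} {k : ι → ι → ℝ} (hk : Ker h k) (Λ : Finset ι) (x : ι) :
    -h ≤ ∑ y ∈ Λ, k x y := by
  have h1 : |∑ y ∈ Λ, k x y| ≤ h := by
    refine (Finset.abs_sum_le_sum_abs _ _).trans ?_
    refine le_trans ?_ (hk.le x)
    exact (hk.sm x).sum_le_tsum Λ fun y _ => abs_nonneg _
  exact (abs_le.1 h1).1

/-- interior points -/
theorem S_in {h κ η : ℝ} {k B : ι → ι → ℝ} (hk : Ker h k) (x : ι) (hκ : ∑' y, k x y = κ)
    (hB : Ker η fun x y => k x y - B x y) (Λ : Finset ι) (hΛ : ∀ y, B x y ≠ 0 → y ∈ Λ) :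
    κ - η ≤ ∑ y ∈ Λ, k x y := by
  classical
  have s1 : Summable fun y => k x y := (hk.sm x).of_abs
  have s2 : Summable fun y => if y ∈ Λ then k x y else 0 :=
    summable_of_ne_finset_zero (s := Λ) fun y hy => by rw [if_neg hy]
  have e2 : ∑' y, (if y ∈ Λ then k x y else 0) = ∑ y ∈ Λ, k x y := by
    rw [tsum_eq_sum (s := Λ)]
    · exact Finset.sum_congr rfl fun y hy => if_pos hy
    · intro y hy
      exact if_neg hy
  have h1 : ∑' y, (k x y - if y ∈ Λ then k x y else 0) ≤ ∑' y, |k x y - B x y| := by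
    refine Summable.tsum_le_tsum (fun y => ?_) (s1.sub s2) (hB.sm x)
    by_cases hy : y ∈ Λ
    · rw [if_pos hy, sub_self]
      exact abs_nonneg _
    · have hb : B x y = 0 := by
        by_contra hb
        exact hy (hΛ y hb)
      rw [if_neg hy, sub_zero, hb, sub_zero]
      exact le_abs_self _
  rw [s1.tsum_sub s2, e2, hκ] at h1
  have h2 := hB.le x
  linarith

end ind

/-! ### boxes -/

section box

variable {d : ℕ}

open Classical in
/-- the points of a box near its boundary -/
noncomputable def nbd (a : Fin d → ℤ) (L R : ℕ) : Finset (Fin d → ℤ) :=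
  (bx a L).filter fun x => ∃ i, x i < a i + R ∨ a i + L - R ≤ x i

open Classical in
theorem card_nbd (a : Fin d → ℤ) (L R : ℕ) :
    (nbd a L R).card * L ≤ 2 * d * R * (bx a L).card := by
  have h1 : nbd a L R ⊆ Finset.univ.biUnion fun i : Fin d => (Finset.range R).biUnion fun t =>
      ((bx a L).filter fun x => x i = a i + t) ∪
        ((bx a L).filter fun x => x i = a i + L - 1 - t) := by
    intro x hx
    unfold nbd at hx
    rw [Finset.mem_filter] at hx
    obtain ⟨hxb, i, hi⟩ := hx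
    have hxi := mem_bx.1 hxb i
    rw [Finset.mem_biUnion]
    refine ⟨i, Finset.mem_univ i, ?_⟩
    rw [Finset.mem_biUnion]
    rcases hi with hi | hi
    · refine ⟨(x i - a i).toNat, Finset.mem_range.2 (by omega), ?_⟩
      rw [Finset.mem_union, Finset.mem_filter]
      left
      exact ⟨hxb, by omega⟩
    · refine ⟨(a i + L - 1 - x i).toNat, Finset.mem_range.2 (by omega), ?_⟩
      rw [Finset.mem_union, Finset.mem_filter, Finset.mem_filter]
      right
      exact ⟨hxb, by omega⟩
  calc (nbd a L R).card * L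
      ≤ (∑ i : Fin d, ∑ t ∈ Finset.range R, (((bx a L).filter fun x => x i = a i + t).card +
        ((bx a L).filter fun x => x i = a i + L - 1 - t).card)) * L := by
        refine Nat.mul_le_mul_right _ ?_
        refine (Finset.card_le_card h1).trans ?_
        refine Finset.card_biUnion_le.trans ?_
        refine Finset.sum_le_sum fun i _ => ?_
        refine Finset.card_biUnion_le.trans ?_
        exact Finset.sum_le_sum fun t _ => Finset.card_union_le _ _
    _ = ∑ i : Fin d, ∑ t ∈ Finset.range R, (((bx a L).filter fun x => x i = a i + t).card * L +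
        ((bx a L).filter fun x => x i = a i + L - 1 - t).card * L) := by
        rw [Finset.sum_mul]
        refine Finset.sum_congr rfl fun i _ => ?_
        rw [Finset.sum_mul]
        exact Finset.sum_congr rfl fun t _ => add_mul _ _ _
    _ ≤ ∑ i : Fin d, ∑ t ∈ Finset.range R, ((bx a L).card + (bx a L).card) := by
        refine Finset.sum_le_sum fun i _ => Finset.sum_le_sum fun t _ => ?_
        exact Nat.add_le_add (card_bd a L i _) (card_bd a L i _)
    _ = 2 * d * R * (bx a L).card := by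
        rw [Finset.sum_const, Finset.sum_const, Finset.card_univ, Fintype.card_fin,
          Finset.card_range, smul_eq_mul, smul_eq_mul]
        ring

theorem in_box {a : Fin d → ℤ} {L R : ℕ} {x : Fin d → ℤ} (hx : x ∈ bx a L)
    (hn : x ∉ nbd a L R) (y : Fin d → ℤ) (hy : ∀ i, |x i - y i| ≤ (R : ℤ)) : y ∈ bx a L := by
  classical
  rw [mem_bx]
  intro i
  have h1 : ¬ (x i < a i + R ∨ a i + L - R ≤ x i) := by
    intro h
    apply hn
    unfold nbd
    rw [Finset.mem_filter]
    exact ⟨hx, i, h⟩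
  have h2 := abs_le.1 (hy i)
  push Not at h1
  constructor <;> omega

end box

/-! ### the theorem -/

theorem topY : S_topY := by
  classical
  intro d k h κ hd hk hκ happ μ _ _ hμ lam hlam e0 he0
  -- the parameters
  obtain ⟨g, hg⟩ : ∃ g, g = κ + lam - e0 := ⟨_, rfl⟩
  have hg0 : 0 < g := by rw [hg]; linarith
  obtain ⟨η, hη⟩ : ∃ η, η = g / (4 * (1 + lam)) := ⟨_, rfl⟩
  have hη0 : 0 < η := by rw [hη]; positivity
  have hη1 : η * (1 + lam) = g / 4 := by
    rw [hη]
    field_simp
  obtain ⟨R, B, hBR, hB⟩ := happ η hη0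
  have hh0 := hk.h0
  obtain ⟨L, hL⟩ := exists_nat_gt (8 * h * d * R / g)
  have hL0 : (0 : ℝ) < L := lt_of_le_of_lt (by positivity) hL
  have hL1 : 0 < L := by exact_mod_cast hL0
  have hL2 : 2 * h * (2 * d * R / L) < g / 2 := by
    rw [div_lt_iff₀ hg0] at hL
    rw [← mul_div_assoc, div_lt_iff₀ hL0]
    linarith
  -- the boxes
  let i0 : Fin d := ⟨0, hd⟩
  let a : ℕ → Fin d → ℤ := fun j => fun i => if i = i0 then (j : ℤ) * L else 0
  let Λ : ℕ → Finset (Lt d) := fun j => bx (a j) L
  have hdis : Pairwise fun i j => Disjoint (Λ i) (Λ j) := by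
    intro j j' hjj
    rw [Finset.disjoint_left]
    intro x h1 h2
    have h3 := mem_bx.1 h1 i0
    have h4 := mem_bx.1 h2 i0
    simp only [a, if_true] at h3 h4
    have h5 : (j : ℤ) < j' + 1 := by
      by_contra h
      push Not at h
      nlinarith
    have h6 : (j' : ℤ) < j + 1 := by
      by_contra h
      push Not at h
      nlinarith
    exact hjj (by omega)
  have hcard : ∀ j, (Λ j).card ≤ L ^ d := fun j => (card_bx (a j) L).le
  have hgood := good_box μ (Set.Ioi (1 - η)) measurableSet_Ioi (hμ η hη0) Λ hdis _ hcard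
  filter_upwards [hgood] with ω hω
  obtain ⟨j, hj⟩ := hω
  refine ⟨tf (Λ j), ?_⟩
  rw [tf_norm, hh_tf hk]
  have hΛe : Λ j = bx (a j) L := rfl
  have h3 : ∀ x ∈ Λ j, (κ - η + lam * (1 - η)) - 2 * h * (if x ∈ nbd (a j) L R then 1 else 0) ≤
      ∑ y ∈ Λ j, k x y + clp lam (lam * ω x) := by
    intro x hx
    have h4 := clp_ge hlam hη0 (hj x hx)
    have h5 : (κ - η) - 2 * h * (if x ∈ nbd (a j) L R then 1 else 0) ≤ ∑ y ∈ Λ j, k x y := by
      by_cases hn : x ∈ nbd (a j) L R
      · rw [if_pos hn]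
        have h6 := S_out hk (Λ j) x
        have h7 := row_le hk x (hκ x)
        linarith
      · rw [if_neg hn, mul_zero, sub_zero]
        exact S_in hk x (hκ x) hB (Λ j) fun y hy => in_box hx hn y (hBR x y hy)
    linarith
  refine lt_of_lt_of_le ?_ (Finset.sum_le_sum h3)
  rw [Finset.sum_sub_distrib, Finset.sum_const, nsmul_eq_mul, ← Finset.mul_sum]
  have hcn : ∑ x ∈ Λ j, (if x ∈ nbd (a j) L R then (1 : ℝ) else 0) = (nbd (a j) L R).card := by
    rw [← Finset.sum_filter, Finset.sum_const, nsmul_eq_mul, mul_one]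
    congr 2
    ext x
    rw [Finset.mem_filter]
    constructor
    · exact fun h => h.2
    · intro h
      refine ⟨?_, h⟩
      unfold nbd at h
      exact (Finset.mem_filter.1 h).1
  rw [hcn]
  have hb1 : 0 < (Λ j).card := by
    rw [hΛe, card_bx]
    positivity
  have hb1' : (0 : ℝ) < (Λ j).card := by exact_mod_cast hb1
  have hnb : ((nbd (a j) L R).card : ℝ) ≤ (2 * d * R / L) * (Λ j).card := by
    have h5 := card_nbd (a j) L R
    have h6 : ((nbd (a j) L R).card : ℝ) * L ≤ 2 * d * R * (Λ j).card := by exact_mod_cast h5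
    rw [div_mul_eq_mul_div, le_div_iff₀ hL0]
    exact h6
  have h8 : 2 * h * ((nbd (a j) L R).card : ℝ) ≤ (2 * h * (2 * d * R / L)) * (Λ j).card := by
    calc 2 * h * ((nbd (a j) L R).card : ℝ) ≤ 2 * h * ((2 * d * R / L) * (Λ j).card) :=
          mul_le_mul_of_nonneg_left hnb (by positivity)
      _ = _ := by ring
  have h9 : (2 * h * (2 * d * R / L)) * (Λ j).card ≤ g / 2 * (Λ j).card :=
    mul_le_mul_of_nonneg_right hL2.le hb1'.le
  have h10 : κ - η + lam * (1 - η) = e0 + g - g / 4 := by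
    rw [← hη1, hg]; ring
  rw [h10]
  have h11 : 0 < g * (Λ j).card := mul_pos hg0 hb1'
  nlinarith

end Pool.Agent.H548.MY
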